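import Pool.Agent.H278Z.TS.Space

namespace Pool.Agent.Results.MP_302921_gt.ADiamondCounter

open Pool.Agent.Helper292.ForceCH H453Z.Kw Pool.Agent.H278Z.TS

/-- (1) Some forcing notion preserves `ω₁` and forces diamond. (2) Diamond gives a separable
compact Hausdorff space which is not metrizable and whose square is t-extendial. -/
theorem result :
    (∃ (P : Type) (_ : Preorder P), Nonempty P ∧ ∀ p : P,
      p ∈ OmegaOnePreserved P ∧ p ∈ DiamondHolds P) ∧
    (Diamond → ∃ (X : Type) (_ : TopologicalSpace X), CompactSpace X ∧ T2Space X ∧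
      TopologicalSpace.SeparableSpace X ∧ TExtendial (X × X) ∧
      ¬ TopologicalSpace.MetrizableSpace X) := by
  refine ⟨?_, main⟩
  obtain ⟨P, hP, hne, h⟩ := exists_forcing
  exact ⟨P, hP, hne, fun p => ⟨(h p).1, (h p).2.1⟩⟩

end Pool.Agent.Results.MP_302921_gt.ADiamondCounter
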